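import Mathlib

/-!
# Asymmetric homomorphism thresholds of consecutive odd-cycle families

Subdivided shift graphs with attached blobs.
-/

namespace Pool.Agent.R511.HomThr

open SimpleGraph

/-- `G` contains none of the odd cycles of length at most `s` as a subgraph. -/
def OddCycleFree {V : Type*} (s : ℕ) (G : SimpleGraph V) : Prop :=
  ∀ k : ℕ, Odd k → 3 ≤ k → k ≤ s → (cycleGraph k).Free G

/-- An odd closed walk contains an odd cycle that is at most as long. -/
theorem exists_cycle_of_closed {V : Type*} (G : SimpleGraph V) :
    ∀ l : ℕ, Odd l → ∀ x : ℕ → V, (∀ i < l, G.Adj (x i) (x (i + 1))) → x l = x 0 →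
      ∃ k, Odd k ∧ 3 ≤ k ∧ k ≤ l ∧ (cycleGraph k) ⊑ G := by
  intro l
  induction l using Nat.strong_induction_on with
  | _ l ih =>
    intro hodd x hadj hclose
    by_cases hinj : ∀ i < l, ∀ j < l, x i = x j → i = j
    · have hl3 : 3 ≤ l := by
        rcases hodd with ⟨r, rfl⟩
        rcases Nat.eq_zero_or_pos r with rfl | hr
        · exfalso
          have h0 := hadj 0 (by norm_num)
          simp only [Nat.mul_zero, Nat.zero_add] at hclose h0
          rw [hclose] at h0
          exact G.irrefl h0
        · omega
      refine ⟨l, hodd, hl3, le_rfl, ?_⟩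
      have key : ∀ u v : Fin l, (v - u).val = 1 → G.Adj (x u.val) (x v.val) := by
        intro u v huv
        rw [Fin.sub_def] at huv
        simp only at huv
        have hu := u.isLt
        have hv := v.isLt
        by_cases h1 : l - u.val + v.val < l
        · rw [Nat.mod_eq_of_lt h1] at huv
          have h2 : v.val = 0 := by omega
          have h3 : u.val + 1 = l := by omega
          have h4 := hadj u.val hu
          rw [h3, hclose] at h4
          rw [h2]
          exact h4
        · have h5 : (l - u.val + v.val) % l = l - u.val + v.val - l := by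
            rw [Nat.mod_eq_sub_mod (by omega), Nat.mod_eq_of_lt (by omega)]
          rw [h5] at huv
          have h2 : v.val = u.val + 1 := by omega
          rw [h2]
          exact hadj u.val hu
      refine ⟨⟨⟨fun i => x i.val, ?_⟩, ?_⟩⟩
      · intro u v huv
        rcases cycleGraph_adj'.mp huv with h | h
        · exact (key v u h).symm
        · exact key u v h
      · intro u v huv
        exact Fin.ext (hinj u.val u.isLt v.val v.isLt huv)
    · push Not at hinj
      have hex : ∃ i j : ℕ, i < j ∧ j < l ∧ x i = x j := by
        obtain ⟨i, hi, j, hj, hxij, hne⟩ := hinj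
        rcases Nat.lt_or_gt_of_ne hne with h | h
        · exact ⟨i, j, h, hj, hxij⟩
        · exact ⟨j, i, h, hi, hxij.symm⟩
      obtain ⟨i, j, hij, hjl, hxij⟩ := hex
      rcases Nat.even_or_odd (j - i) with he | ho
      · have hodd' : Odd (l - (j - i)) := Nat.Odd.sub_even (by omega) hodd he
        obtain ⟨k, h1, h2, h3, h4⟩ := ih (l - (j - i)) (by omega) hodd'
          (fun n => if n ≤ i then x n else x (n + (j - i))) (by
            intro n hn
            by_cases hni : n < i
            · rw [if_pos (by omega), if_pos (by omega)]
              exact hadj n (by omega)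
            · by_cases hni' : n = i
              · subst hni'
                rw [if_pos le_rfl, if_neg (by omega), hxij]
                have h5 := hadj j hjl
                have h6 : n + 1 + (j - n) = j + 1 := by omega
                rw [h6]
                exact h5
              · rw [if_neg (by omega), if_neg (by omega)]
                have h5 := hadj (n + (j - i)) (by omega)
                have h6 : n + 1 + (j - i) = n + (j - i) + 1 := by omega
                rw [h6]
                exact h5) (by
            rw [if_neg (by omega), if_pos (by omega)]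
            have h6 : l - (j - i) + (j - i) = l := by omega
            rw [h6]
            exact hclose)
        exact ⟨k, h1, h2, by omega, h4⟩
      · obtain ⟨k, h1, h2, h3, h4⟩ := ih (j - i) (by omega) ho
          (fun n => x (i + n)) (by
            intro n hn
            exact hadj (i + n) (by omega)) (by
            have h6 : i + (j - i) = j := by omega
            rw [h6, Nat.add_zero]
            exact hxij.symm)
        exact ⟨k, h1, h2, by omega, h4⟩

/-- From a closed sequence with at most one backward step to the forbidden pattern. -/
theorem star_of_few {V : Type*} (N l : ℕ) [NeZero l] (E : V → V → Prop)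
    (x : ZMod l → V) (T : Finset (ZMod l)) (hT1 : ∀ i, i ∉ T → E (x i) (x (i + 1)))
    (hT2 : ∀ i ∈ T, E (x (i + 1)) (x i)) (hl : l = N + 2 * T.card) (hcard : T.card ≤ 1) :
    ∃ y : ℕ → V, (∀ j ≤ N, E (y j) (y (j + 1))) ∧ E (y 0) (y (N + 1)) := by
  rcases Nat.lt_or_ge T.card 1 with h0 | h1
  · have hc0 : T.card = 0 := by omega
    have hT : T = ∅ := Finset.card_eq_zero.mp hc0
    have hlN : l = N := by omega
    subst hT
    refine ⟨fun j => x (j : ZMod l), ?_, ?_⟩
    · intro j _
      have := hT1 (j : ZMod l) (by simp)
      simpa using this
    · have h := hT1 (0 : ZMod l) (by simp)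
      have h2 : (((N + 1 : ℕ)) : ZMod l) = 0 + 1 := by
        rw [← hlN]
        simp
      simp only
      rw [h2]
      simpa using h
  · have hc1 : T.card = 1 := by omega
    obtain ⟨b, hb⟩ := Finset.card_eq_one.mp hc1
    have hlN : l = N + 2 := by omega
    refine ⟨fun j => x (b + 1 + (j : ZMod l)), ?_, ?_⟩
    · intro j hj
      have hnot : b + 1 + (j : ZMod l) ∉ T := by
        rw [hb, Finset.mem_singleton]
        intro h
        have h1 : ((j + 1 : ℕ) : ZMod l) = 0 := by
          push_cast
          have : b + ((j : ZMod l) + 1) = b + 0 := by
            rw [add_zero]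
            calc b + ((j : ZMod l) + 1) = b + 1 + (j : ZMod l) := by ring
              _ = b := h
          exact add_left_cancel this
        rw [ZMod.natCast_eq_zero_iff] at h1
        have := Nat.le_of_dvd (by omega) h1
        omega
      have h := hT1 _ hnot
      have h2 : b + 1 + (((j + 1 : ℕ)) : ZMod l) = b + 1 + (j : ZMod l) + 1 := by
        push_cast
        ring
      simp only
      rw [h2]
      exact h
    · have h := hT2 b (by rw [hb]; exact Finset.mem_singleton_self b)
      have h2 : b + 1 + (((N + 1 : ℕ)) : ZMod l) = b := by
        have h3 : (((N + 2 : ℕ)) : ZMod l) = 0 := by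
          rw [← hlN]
          simp
        push_cast at h3 ⊢
        calc b + 1 + ((N : ZMod l) + 1) = b + ((N : ZMod l) + 2) := by ring
          _ = b := by rw [h3, add_zero]
      simp only
      rw [h2]
      simpa using h

/-- A short odd closed sequence in a graph oriented along a cyclic colouring with `N` colours
gives a forward walk `y 0, …, y (N + 1)` together with a forward arc from `y 0` to
`y (N + 1)`. -/
theorem star_of_closed {V : Type*} (N l : ℕ) [NeZero l] (hN : 3 ≤ N) (hNodd : Odd N)
    (hlodd : Odd l) (hl : l ≤ N + 2) (E : V → V → Prop) (c : V → ZMod N)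
    (hc : ∀ u v, E u v → c v = c u + 1) (x : ZMod l → V)
    (hx : ∀ i, E (x i) (x (i + 1)) ∨ E (x (i + 1)) (x i)) :
    ∃ y : ℕ → V, (∀ j ≤ N, E (y j) (y (j + 1))) ∧ E (y 0) (y (N + 1)) := by
  classical
  set F : Finset (ZMod l) := Finset.univ.filter (fun i => E (x i) (x (i + 1))) with hF
  set B : Finset (ZMod l) := Finset.univ.filter (fun i => ¬ E (x i) (x (i + 1))) with hB
  have hcardFB : F.card + B.card = l := by
    have := Finset.card_filter_add_card_filter_not (s := (Finset.univ : Finset (ZMod l)))
      (fun i => E (x i) (x (i + 1)))
    rw [Finset.card_univ, ZMod.card] at this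
    exact this
  -- the sum of the signs
  have hsum : ((F.card : ℤ) - (B.card : ℤ) : ℤ) = ∑ i : ZMod l,
      (if E (x i) (x (i + 1)) then (1 : ℤ) else -1) := by
    rw [Finset.sum_ite, Finset.sum_const, Finset.sum_const]
    simp only [nsmul_eq_mul, mul_one, mul_neg]
    rw [← hF, ← hB]
    ring
  have hstep : ∀ i : ZMod l, c (x (i + 1)) - c (x i) =
      (((if E (x i) (x (i + 1)) then (1 : ℤ) else -1) : ℤ) : ZMod N) := by
    intro i
    by_cases h : E (x i) (x (i + 1))
    · rw [if_pos h, hc _ _ h]
      push_cast
      ring
    · rw [if_neg h]
      rcases hx i with h' | h'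
      · exact absurd h' h
      · rw [hc _ _ h']
        push_cast
        ring
  have hz : (((F.card : ℤ) - (B.card : ℤ) : ℤ) : ZMod N) = 0 := by
    rw [hsum, Int.cast_sum, ← Finset.sum_congr rfl (fun i _ => hstep i),
      Finset.sum_sub_distrib]
    have := Equiv.sum_comp (Equiv.addRight (1 : ZMod l)) (fun i => c (x i))
    simp only [Equiv.coe_addRight] at this
    rw [this, sub_self]
  rw [ZMod.intCast_zmod_eq_zero_iff_dvd] at hz
  obtain ⟨q, hq⟩ := hz
  have hF0 : F.card ≤ l := by omega
  have hB0 : B.card ≤ l := by omega
  have hqlo : -3 < q := by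
    by_contra hcon
    have : (N : ℤ) * q ≤ N * (-3) := mul_le_mul_of_nonneg_left (by omega) (by positivity)
    omega
  have hqhi : q < 3 := by
    by_contra hcon
    have : (N : ℤ) * 3 ≤ N * q := mul_le_mul_of_nonneg_left (by omega) (by positivity)
    omega
  obtain ⟨r, hr⟩ := hNodd
  obtain ⟨u, hu⟩ := hlodd
  have hcase : (F.card : ℤ) - B.card = N ∨ (F.card : ℤ) - B.card = -N := by
    interval_cases q <;> omega
  rcases hcase with h | h
  · refine star_of_few N l E x B ?_ ?_ (by omega) (by omega)
    · intro i hi
      by_contra hcon
      exact hi (by rw [hB]; simp [hcon])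
    · intro i hi
      rw [hB, Finset.mem_filter] at hi
      exact (hx i).resolve_left hi.2
  · refine star_of_few N l E (fun i => x (-i)) (F.image (fun i => -i - 1)) ?_ ?_ ?_ ?_
    · intro i hi
      have h1 : ¬ E (x (-i - 1)) (x (-i)) := by
        intro hcon
        apply hi
        rw [Finset.mem_image]
        refine ⟨-i - 1, ?_, by ring⟩
        rw [hF, Finset.mem_filter]
        refine ⟨Finset.mem_univ _, ?_⟩
        have : -i - 1 + 1 = -i := by ring
        rw [this]
        exact hcon
      have h2 := hx (-i - 1)
      have h3 : -i - 1 + 1 = -i := by ring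
      rw [h3] at h2
      have h4 : -(i + 1) = -i - 1 := by ring
      rw [h4]
      exact h2.resolve_left h1
    · intro i hi
      rw [Finset.mem_image] at hi
      obtain ⟨j, hj, rfl⟩ := hi
      rw [hF, Finset.mem_filter] at hj
      have h3 : -(-j - 1 + 1) = j := by ring
      have h4 : -(-j - 1) = j + 1 := by ring
      rw [h3, h4]
      exact hj.2
    · have : (F.image (fun i => -i - 1)).card = F.card :=
        Finset.card_image_of_injective _ (fun a b hab => by
          have : -a = -b := by simpa using hab
          exact neg_injective this)
      rw [this]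
      omega
    · have : (F.image (fun i => -i - 1)).card = F.card :=
        Finset.card_image_of_injective _ (fun a b hab => by
          have : -a = -b := by simpa using hab
          exact neg_injective this)
      rw [this]
      omega

end Pool.Agent.R511.HomThr
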