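import Mathlib
import Pool.Agent.R511.HomThr

/-!
# The graphs: subdivided shift graphs with attached blobs
-/

namespace Pool.Agent.R511.HomThr

open SimpleGraph

/-- The vertex set. -/
abbrev Vtx (N m L : ℕ) : Type :=
  (Fin N × Fin m × Fin m) ⊕
    ((Fin N × (Fin m → Bool) × (Bool × Bool × Fin L)) ⊕ (Fin N × (Fin m → Bool) × Fin L))

/-- The orientation. -/
def Arc (N m L : ℕ) : Vtx N m L → Vtx N m L → Prop
  | .inl (i, a, b), .inl (j, a', b') =>
      (i.val + 1 = j.val ∧ a' = a ∧ b' = b) ∨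
        (i.val + 1 = N ∧ j.val = 0 ∧ a < b ∧ a' = b ∧ b < b')
  | .inl (i, a, b), .inr (.inl (j, w, _)) => i = j ∧ (a < b → w a = true ∧ w b = false)
  | .inr (.inr (i, _)), .inr (.inl (j, _)) => i = j
  | _, _ => False

theorem arc_ww {N m L : ℕ} {i j : Fin N} {a b a' b' : Fin m} :
    Arc N m L (.inl (i, a, b)) (.inl (j, a', b')) ↔
      ((i.val + 1 = j.val ∧ a' = a ∧ b' = b) ∨
        (i.val + 1 = N ∧ j.val = 0 ∧ a < b ∧ a' = b ∧ b < b')) := Iff.rfl

theorem arc_wa {N m L : ℕ} {i j : Fin N} {a b : Fin m} {w : Fin m → Bool}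
    {s : Bool × Bool × Fin L} :
    Arc N m L (.inl (i, a, b)) (.inr (.inl (j, w, s))) ↔
      (i = j ∧ (a < b → w a = true ∧ w b = false)) := Iff.rfl

theorem arc_ba {N m L : ℕ} {i j : Fin N} {w : (Fin m → Bool) × Fin L}
    {s : (Fin m → Bool) × Bool × Bool × Fin L} :
    Arc N m L (.inr (.inr (i, w))) (.inr (.inl (j, s))) ↔ i = j := Iff.rfl

/-- Vertices `A` have no outgoing arc. -/
theorem arc_from_a {N m L : ℕ} {p : Fin N × (Fin m → Bool) × (Bool × Bool × Fin L)}
    {v : Vtx N m L} : ¬ Arc N m L (.inr (.inl p)) v := by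
  intro h
  rcases v with v | v | v <;> exact h

/-- Vertices `B` have no incoming arc. -/
theorem arc_to_b {N m L : ℕ} {p : Fin N × (Fin m → Bool) × Fin L}
    {v : Vtx N m L} : ¬ Arc N m L v (.inr (.inr p)) := by
  intro h
  rcases v with v | v | v <;> exact h

/-- Vertices `B` have arcs to vertices `A` only. -/
theorem arc_from_b {N m L : ℕ} {p : Fin N × (Fin m → Bool) × Fin L}
    {q : Fin N × Fin m × Fin m} : ¬ Arc N m L (.inr (.inr p)) (.inl q) := by
  intro h
  exact h

/-- The underlying graph. -/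
def Gr (N m L : ℕ) : SimpleGraph (Vtx N m L) where
  Adj u v := Arc N m L u v ∨ Arc N m L v u
  symm := ⟨fun _ _ h => h.symm⟩
  loopless := ⟨by
    intro u h
    have h' : Arc N m L u u := h.elim id id
    rcases u with ⟨i, a, b⟩ | u | u
    · rw [arc_ww] at h'
      rcases h' with ⟨h1, _⟩ | ⟨_, _, h2, h3, _⟩
      · omega
      · rw [h3] at h2
        exact absurd h2 (lt_irrefl _)
    · exact h'
    · exact h'⟩

/-- The colouring. -/
def col (N m L : ℕ) : Vtx N m L → ZMod N
  | .inl (i, _) => (i.val : ZMod N)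
  | .inr (.inl (i, _)) => (i.val : ZMod N) + 1
  | .inr (.inr (i, _)) => (i.val : ZMod N)

theorem col_arc (N m L : ℕ) (u v : Vtx N m L) (h : Arc N m L u v) :
    col N m L v = col N m L u + 1 := by
  rcases u with ⟨i, a, b⟩ | u | ⟨i, w⟩
  · rcases v with ⟨j, a', b'⟩ | ⟨j, w, s⟩ | v
    · rw [arc_ww] at h
      change (j.val : ZMod N) = (i.val : ZMod N) + 1
      rcases h with ⟨h1, _⟩ | ⟨h1, h2, _⟩
      · rw [← h1]
        push_cast
        ring
      · rw [h2]
        have : (((i.val + 1 : ℕ)) : ZMod N) = 0 := by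
          rw [h1]
          simp
        push_cast at this ⊢
        exact this.symm
    · rw [arc_wa] at h
      change (j.val : ZMod N) + 1 = (i.val : ZMod N) + 1
      rw [h.1]
    · exact absurd h arc_to_b
  · exact absurd h arc_from_a
  · rcases v with ⟨j, a', b'⟩ | ⟨j, s⟩ | v
    · exact absurd h arc_from_b
    · rw [arc_ba] at h
      change (j.val : ZMod N) + 1 = (i.val : ZMod N) + 1
      rw [h]
    · exact absurd h arc_to_b

/-- A vertex with an outgoing arc whose end has an outgoing arc is of type `W`. -/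
theorem exists_w {N m L : ℕ} {u v w : Vtx N m L} (h : Arc N m L u v) (h' : Arc N m L v w) :
    ∃ i a b, u = .inl (i, a, b) := by
  rcases u with ⟨i, a, b⟩ | u | u
  · exact ⟨i, a, b, rfl⟩
  · exact absurd h arc_from_a
  · rcases v with v | v | v
    · exact absurd h arc_from_b
    · exact absurd h' arc_from_a
    · exact absurd h arc_to_b

/-- A vertex with an incoming and an outgoing arc is of type `W`. -/
theorem exists_w' {N m L : ℕ} {u v w : Vtx N m L} (h : Arc N m L u v) (h' : Arc N m L v w) :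
    ∃ i a b, v = .inl (i, a, b) := by
  rcases v with ⟨i, a, b⟩ | v | v
  · exact ⟨i, a, b, rfl⟩
  · exact absurd h' arc_from_a
  · exact absurd h arc_to_b

/-- The forbidden pattern does not occur. -/
theorem no_star (N m L : ℕ) (hN : 3 ≤ N) (y : ℕ → Vtx N m L)
    (hy : ∀ j ≤ N, Arc N m L (y j) (y (j + 1))) (hlast : Arc N m L (y 0) (y (N + 1))) :
    False := by
  have hW : ∀ j ≤ N, ∃ i a b, y j = .inl (i, a, b) := by
    intro j hj
    rcases Nat.eq_zero_or_pos j with rfl | hpos
    · exact exists_w (hy 0 (by omega)) (hy 1 (by omega))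
    · obtain ⟨k, rfl⟩ : ∃ k, j = k + 1 := ⟨j - 1, by omega⟩
      exact exists_w' (hy k (by omega)) (hy (k + 1) hj)
  obtain ⟨i₀, a₀, b₀, h0⟩ := hW 0 (by omega)
  have hind : ∀ k ≤ N, ∃ (i : Fin N) (a b : Fin m), y k = .inl (i, a, b) ∧
      ((i₀.val + k = i.val ∧ a = a₀ ∧ b = b₀) ∨
        (i₀.val + k = i.val + N ∧ a₀ < b₀ ∧ a = b₀ ∧ b₀ < b)) := by
    intro k
    induction k with
    | zero =>
      intro _
      exact ⟨i₀, a₀, b₀, h0, Or.inl ⟨by omega, rfl, rfl⟩⟩
    | succ k ih =>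
      intro hk
      obtain ⟨i, a, b, hyk, hcase⟩ := ih (by omega)
      obtain ⟨j, a', b', hyk1⟩ := hW (k + 1) hk
      have harc := hy k (by omega)
      rw [hyk, hyk1, arc_ww] at harc
      refine ⟨j, a', b', hyk1, ?_⟩
      have hi := i.isLt
      have hi0 := i₀.isLt
      have hj := j.isLt
      rcases harc with ⟨h1, h2, h3⟩ | ⟨h1, h2, h3, h4, h5⟩
      · rcases hcase with ⟨g1, g2, g3⟩ | ⟨g1, g2, g3, g4⟩
        · left
          exact ⟨by omega, h2.trans g2, h3.trans g3⟩
        · right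
          exact ⟨by omega, g2, h2.trans g3, by rw [h3]; exact g4⟩
      · rcases hcase with ⟨g1, g2, g3⟩ | ⟨g1, g2, g3, g4⟩
        · right
          refine ⟨by omega, ?_, ?_, ?_⟩
          · rw [← g2, ← g3]
            exact h3
          · rw [h4, g3]
          · rw [← g3]
            exact h5
        · omega
  obtain ⟨i, a, b, hyN, hcase⟩ := hind N le_rfl
  have hi := i.isLt
  have hi0 := i₀.isLt
  rcases hcase with ⟨g1, g2, g3⟩ | ⟨g1, g2, g3, g4⟩
  · omega
  · have hii : i = i₀ := Fin.ext (by omega)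
    have harcN := hy N le_rfl
    rw [hyN] at harcN
    rw [h0] at hlast
    rcases hyl : y (N + 1) with ⟨j, a', b'⟩ | ⟨j, w, s⟩ | v
    · rw [hyl, arc_ww] at harcN hlast
      rw [hii] at harcN
      have hj := j.isLt
      rcases harcN with ⟨h1, h2, h3⟩ | ⟨h1, h2, h3, h4, h5⟩
      · rcases hlast with ⟨k1, k2, k3⟩ | ⟨k1, k2, k3, k4, k5⟩
        · have : a₀ = b₀ := by rw [← k2, h2, g3]
          rw [this] at g2
          exact lt_irrefl _ g2
        · omega
      · rcases hlast with ⟨k1, k2, k3⟩ | ⟨k1, k2, k3, k4, k5⟩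
        · omega
        · have : b₀ = b := by rw [← k4, h4]
          rw [this] at g4
          exact lt_irrefl _ g4
    · rw [hyl, arc_wa] at harcN hlast
      have h1 := (harcN.2 (by rw [g3]; exact g4)).1
      have h2 := (hlast.2 g2).2
      rw [g3, h2] at h1
      exact absurd h1 (by decide)
    · rw [hyl] at harcN
      exact absurd harcN arc_to_b

/-- The graphs have no odd cycle of length at most `N + 2`. -/
theorem gr_free (N m L : ℕ) (hN : 3 ≤ N) (hNodd : Odd N) :
    OddCycleFree (N + 2) (Gr N m L) := by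
  intro k hk hk3 hkN hcont
  obtain ⟨f⟩ := hcont
  obtain ⟨n, rfl⟩ : ∃ n, k = n + 2 := ⟨k - 2, by omega⟩
  have hadj : ∀ i : Fin (n + 2), (Gr N m L).Adj (f i) (f (i + 1)) := by
    intro i
    apply f.toHom.map_rel
    refine cycleGraph_adj.mpr (Or.inr ?_)
    exact add_sub_cancel_left i 1
  obtain ⟨y, hy1, hy2⟩ := star_of_closed N (n + 2) hN hNodd hk hkN (Arc N m L)
    (col N m L) (col_arc N m L) (fun i : ZMod (n + 2) => f i) (fun i => hadj i)
  exact no_star N m L hN y hy1 hy2

end Pool.Agent.R511.HomThr
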