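import Mathlib
import Pool.Agent.R511.HomThr2

/-!
# Degrees, homomorphic images, and the threshold
-/

namespace Pool.Agent.R511.HomThr

open SimpleGraph

theorem card_le_degree_of_injective {V : Type*} [Fintype V] (G : SimpleGraph V)
    [DecidableRel G.Adj] {ι : Type*} [Fintype ι] (v : V) (f : ι → V)
    (hf : Function.Injective f) (h : ∀ i, G.Adj v (f i)) : Fintype.card ι ≤ G.degree v := by
  classical
  rw [← G.card_neighborFinset_eq_degree, ← Finset.card_univ,
    ← Finset.card_image_of_injective Finset.univ hf]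
  apply Finset.card_le_card
  intro w hw
  rw [Finset.mem_image] at hw
  obtain ⟨i, _, rfl⟩ := hw
  rw [mem_neighborFinset]
  exact h i

/-- Force the values `true` at `a` and `false` at `b` when `a < b`. -/
def force {m : ℕ} (a b : Fin m) (w : Fin m → Bool) : Fin m → Bool :=
  if a < b then Function.update (Function.update w a true) b false else w

theorem force_true {m : ℕ} {a b : Fin m} (h : a < b) (w : Fin m → Bool) :
    force a b w a = true := by
  unfold force
  rw [if_pos h, Function.update_of_ne (ne_of_lt h), Function.update_self]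

theorem force_false {m : ℕ} {a b : Fin m} (h : a < b) (w : Fin m → Bool) :
    force a b w b = false := by
  unfold force
  rw [if_pos h, Function.update_self]

theorem force_inj {m : ℕ} {a b : Fin m} {w w' : Fin m → Bool}
    (h : force a b w = force a b w') (ha : w a = w' a) (hb : w b = w' b) : w = w' := by
  unfold force at h
  by_cases hab : a < b
  · rw [if_pos hab, if_pos hab] at h
    funext c
    by_cases hcb : c = b
    · rw [hcb]; exact hb
    · by_cases hca : c = a
      · rw [hca]; exact ha
      · have := congrFun h c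
        rw [Function.update_of_ne hcb, Function.update_of_ne hca, Function.update_of_ne hcb,
          Function.update_of_ne hca] at this
        exact this
  · rw [if_neg hab, if_neg hab] at h
    exact h

theorem card_vtx (N m L : ℕ) :
    Fintype.card (Vtx N m L) = N * (m * m) + 5 * N * (2 ^ m * L) := by
  simp only [Vtx, Fintype.card_sum, Fintype.card_prod, Fintype.card_fin, Fintype.card_bool,
    Fintype.card_fun]
  ring

theorem le_degree (N m L : ℕ) [DecidableRel (Gr N m L).Adj] (v : Vtx N m L) :
    2 ^ m * L ≤ (Gr N m L).degree v := by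
  by_cases hL : L = 0
  · subst hL
    simp
  have hcard : Fintype.card ((Fin m → Bool) × Fin L) = 2 ^ m * L := by
    simp only [Fintype.card_prod, Fintype.card_fin, Fintype.card_bool, Fintype.card_fun]
  rw [← hcard]
  rcases v with ⟨i, a, b⟩ | ⟨i, w, s⟩ | ⟨i, w, s⟩
  · refine card_le_degree_of_injective _ _
      (fun p => .inr (.inl (i, force a b p.1, (p.1 a, p.1 b, p.2)))) ?_ ?_
    · rintro ⟨w, s⟩ ⟨w', s'⟩ h
      simp only [Sum.inr.injEq, Sum.inl.injEq, Prod.mk.injEq, true_and] at h
      obtain ⟨h1, h2, h3, h4⟩ := h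
      rw [force_inj h1 h2 h3, h4]
    · rintro ⟨w, s⟩
      left
      rw [arc_wa]
      exact ⟨rfl, fun h => ⟨force_true h w, force_false h w⟩⟩
  · refine card_le_degree_of_injective _ _ (fun p => .inr (.inr (i, p))) ?_ ?_
    · intro p p' h
      simpa using h
    · intro p
      right
      rw [arc_ba]
  · refine card_le_degree_of_injective _ _
      (fun p => .inr (.inl (i, p.1, (true, true, p.2)))) ?_ ?_
    · rintro ⟨w, s⟩ ⟨w', s'⟩ h
      simpa using h
    · intro p
      left
      rw [arc_ba]

/-- A homomorphic image without odd cycles of length at most `N` has at least `log m`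
vertices. -/
theorem le_two_pow (N m L : ℕ) (hN : 3 ≤ N) (hNodd : Odd N) (k : ℕ)
    (H : SimpleGraph (Fin k)) (hH : OddCycleFree N H) (φ : Gr N m L →g H) : m ≤ 2 ^ k := by
  classical
  have hN0 : 0 < N := by omega
  let z : Fin N := ⟨0, hN0⟩
  have hne : ∀ a b c : Fin m, a < b → b < c →
      φ (.inl (z, a, b)) ≠ φ (.inl (z, b, c)) := by
    intro a b c hab hbc heq
    -- the walk of length `N`
    let x : ℕ → Fin k := fun n => if h : n < N then φ (.inl (⟨n, h⟩, a, b))
      else φ (.inl (z, b, c))
    obtain ⟨r, h1, h2, h3, h4⟩ := exists_cycle_of_closed H N hNodd x (by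
      intro n hn
      by_cases hn1 : n + 1 < N
      · have e1 : x n = φ (.inl (⟨n, hn⟩, a, b)) := dif_pos hn
        have e2 : x (n + 1) = φ (.inl (⟨n + 1, hn1⟩, a, b)) := dif_pos hn1
        rw [e1, e2]
        apply φ.map_adj
        left
        rw [arc_ww]
        exact Or.inl ⟨rfl, rfl, rfl⟩
      · have e1 : x n = φ (.inl (⟨n, hn⟩, a, b)) := dif_pos hn
        have e2 : x (n + 1) = φ (.inl (z, b, c)) := dif_neg hn1
        rw [e1, e2]
        apply φ.map_adj
        left
        rw [arc_ww]
        refine Or.inr ⟨?_, rfl, hab, rfl, hbc⟩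
        change n + 1 = N
        omega) (by
      have e1 : x N = φ (.inl (z, b, c)) := dif_neg (lt_irrefl N)
      have e2 : x 0 = φ (.inl (⟨0, hN0⟩, a, b)) := dif_pos hN0
      rw [e1, e2]
      exact heq.symm)
    exact hH r h1 h2 h3 h4
  let F : Fin m → Set (Fin k) := fun b => {v | ∃ c, b < c ∧ φ (.inl (z, b, c)) = v}
  have hF : Function.Injective F := by
    intro a b hab
    by_contra hne'
    have aux : ∀ a b : Fin m, a < b → F a ≠ F b := by
      intro a b hlt heq
      have h1 : φ (.inl (z, a, b)) ∈ F a := ⟨b, hlt, rfl⟩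
      rw [heq] at h1
      obtain ⟨c, hc, hc'⟩ := h1
      exact hne a b c hlt hc hc'.symm
    rcases lt_or_gt_of_ne hne' with h | h
    · exact aux a b h hab
    · exact aux b a h hab.symm
  have := Fintype.card_le_of_injective F hF
  rw [Fintype.card_set, Fintype.card_fin, Fintype.card_fin] at this
  exact this

/-- The real `d` admits a bound for the asymmetric homomorphism problem: there is `M` such
that every finite graph without odd cycles of length at most `s₁` and with minimum degree at
least `d` times its number of vertices maps homomorphically to a graph on at most `M` vertices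
without odd cycles of length at most `s₂`. -/
def Admits (s₁ s₂ : ℕ) (d : ℝ) : Prop :=
  ∃ M : ℕ, ∀ (V : Type) [Fintype V] (G : SimpleGraph V) [DecidableRel G.Adj],
    OddCycleFree s₁ G → d * (Fintype.card V : ℝ) ≤ (G.minDegree : ℝ) →
      ∃ k : ℕ, k ≤ M ∧ ∃ H : SimpleGraph (Fin k), OddCycleFree s₂ H ∧ Nonempty (G →g H)

/-- The asymmetric homomorphism threshold for the families of odd cycles of length at most
`s₁` and at most `s₂`. -/
noncomputable def homThreshold (s₁ s₂ : ℕ) : ℝ :=
  sInf {d : ℝ | 0 ≤ d ∧ d ≤ 1 ∧ Admits s₁ s₂ d}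

theorem admits_one (s₁ s₂ : ℕ) : Admits s₁ s₂ 1 := by
  refine ⟨0, ?_⟩
  intro V _ G _ _ hdeg
  rcases isEmpty_or_nonempty V with hV | hV
  · refine ⟨0, le_rfl, ⊥, ?_, ⟨⟨fun v => hV.elim v, fun {a} => hV.elim a⟩⟩⟩
    intro r _ hr3 _ hcont
    obtain ⟨f⟩ := hcont
    exact (f ⟨0, by omega⟩).elim0
  · exfalso
    have h1 : G.minDegree < Fintype.card V := G.minDegree_lt_card
    rw [one_mul] at hdeg
    have h2 : Fintype.card V ≤ G.minDegree := by exact_mod_cast hdeg
    omega

theorem not_admits (N : ℕ) (hN : 3 ≤ N) (hNodd : Odd N) (d : ℝ) (hd : d < 1 / (5 * N)) :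
    ¬ Admits (N + 2) N d := by
  classical
  rintro ⟨M, hM⟩
  have hN0 : (0 : ℝ) < N := by
    have : 0 < N := by omega
    exact_mod_cast this
  have hd5 : 0 < 1 - 5 * N * d := by
    rw [lt_div_iff₀ (by positivity)] at hd
    linarith
  set m : ℕ := 2 ^ M + 1 with hm
  obtain ⟨L, hL⟩ := exists_nat_ge (|d| * (N * (m * m)) / (1 - 5 * N * d) + 1)
  have hL1 : |d| * (N * (m * m)) ≤ L * (1 - 5 * N * d) := by
    have h1 : |d| * (N * (m * m)) / (1 - 5 * N * d) ≤ L := by linarith
    rwa [div_le_iff₀ hd5] at h1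
  have hL0 : (1 : ℝ) ≤ L := by
    have : 0 ≤ |d| * (N * (m * m)) / (1 - 5 * N * d) := by positivity
    linarith
  have hLpos : 0 < L := by
    have : (0 : ℝ) < L := by linarith
    exact_mod_cast this
  have hmin : d * (Fintype.card (Vtx N m L) : ℝ) ≤ ((Gr N m L).minDegree : ℝ) := by
    have hmpos : 0 < m := Nat.succ_pos _
    have : Nonempty (Vtx N m L) :=
      ⟨.inl (⟨0, by omega⟩, ⟨0, hmpos⟩, ⟨0, hmpos⟩)⟩
    have h1 : 2 ^ m * L ≤ (Gr N m L).minDegree :=
      (Gr N m L).le_minDegree_of_forall_le_degree _ (le_degree N m L)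
    have h2 : ((2 ^ m * L : ℕ) : ℝ) ≤ ((Gr N m L).minDegree : ℝ) := by exact_mod_cast h1
    refine le_trans ?_ h2
    rw [card_vtx]
    push_cast
    have h3 : d * (N * (m * m)) ≤ |d| * (N * (m * m)) :=
      mul_le_mul_of_nonneg_right (le_abs_self d) (by positivity)
    have h4 : (L : ℝ) * (1 - 5 * N * d) ≤ 2 ^ m * (L * (1 - 5 * N * d)) := by
      have h5 : (1 : ℝ) ≤ 2 ^ m := one_le_pow₀ (by norm_num)
      have h6 : 0 ≤ (L : ℝ) * (1 - 5 * N * d) := by positivity
      calc (L : ℝ) * (1 - 5 * N * d) = 1 * (L * (1 - 5 * N * d)) := by ring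
        _ ≤ 2 ^ m * (L * (1 - 5 * N * d)) := mul_le_mul_of_nonneg_right h5 h6
    have h7 : d * (N * (m * m)) ≤ 2 ^ m * (L * (1 - 5 * N * d)) := by linarith
    nlinarith [h7]
  obtain ⟨k, hk, H, hH, ⟨φ⟩⟩ := hM (Vtx N m L) (Gr N m L) (gr_free N m L hN hNodd) hmin
  have h1 := le_two_pow N m L hN hNodd k H hH φ
  have h2 : 2 ^ k ≤ 2 ^ M := Nat.pow_le_pow_right (by norm_num) hk
  omega

end Pool.Agent.R511.HomThr
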